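import Pool.Agent.Q27.RelComm.FreeFacts
import Pool.Agent.Helper694.CS.J_hnn_rf
import Pool.Agent.Helper694.CS.J_free_rf

/-! Finite quotients of the free group on two generators. -/

namespace Q27.OneRel

open FreeGroup (of lift)
open Pool.CS

/-- the free group of rank two -/
abbrev K := FreeGroup (Fin 2)

/-- first generator -/
def a : K := of 0

/-- second generator -/
def b : K := of 1

/-- the commutator of `a` and `b a b⁻¹` -/
def v : K := a * (b * a * b⁻¹) * a⁻¹ * (b * a⁻¹ * b⁻¹)

/-- the reduced word of `v` -/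
def W : List (Fin 2 × Bool) :=
  [(0, true), (1, true), (0, true), (1, false), (0, false), (1, true), (0, false), (1, false)]

theorem toWord_v : v.toWord = W := by decide

open FreeGroup.reduceCyclically in
theorem pow_eq_v (k : K) (n : ℕ) (h : k ^ n = v) : n = 1 := by
  obtain ⟨m, rfl⟩ : ∃ m, n = m + 1 := by
    cases n with
    | zero =>
      exfalso
      have h1 := congrArg FreeGroup.toWord h
      rw [pow_zero, FreeGroup.toWord_one, toWord_v] at h1
      exact absurd h1 (by decide)
    | succ m => exact ⟨m, rfl⟩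
  have h1 := congrArg FreeGroup.toWord h
  rw [FreeGroup.toWord_pow, reduce_flatten_replicate_succ FreeGroup.isReduced_toWord,
    toWord_v] at h1
  set C := conjugator k.toWord with hC
  set c := FreeGroup.reduceCyclically k.toWord with hc
  have hC0 : C = [] := by
    cases hCx : C with
    | nil => rfl
    | cons x C' =>
      exfalso
      rw [hCx] at h1
      have h2 : FreeGroup.invRev (x :: C') = FreeGroup.invRev C' ++ [(x.1, !x.2)] := by
        simp [FreeGroup.invRev]
      rw [h2] at h1
      have h3 := congrArg List.head? h1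
      have h4 := congrArg List.getLast? h1
      simp only [List.cons_append, List.head?_cons, W] at h3
      rw [← List.append_assoc, List.getLast?_append] at h4
      simp only [W] at h4
      simp at h3 h4
      rw [h3] at h4
      simp at h4
  rw [hC0, List.nil_append, FreeGroup.invRev_empty, List.append_nil] at h1
  by_contra hm
  obtain ⟨j, rfl⟩ : ∃ j, m = j + 1 := ⟨m - 1, by omega⟩
  rw [List.replicate_succ, List.replicate_succ, List.flatten_cons, List.flatten_cons] at h1
  have hlen := congrArg List.length h1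
  simp only [List.length_append, List.length_flatten, List.map_replicate, List.sum_replicate,
    smul_eq_mul] at hlen
  have hW8 : W.length = 8 := rfl
  rw [hW8] at hlen
  have hlt : c.length ≤ 4 := by omega
  have hc0 : c.length ≠ 0 := by
    intro h0
    rw [h0] at hlen
    simp at hlen
  have t1 : W.take c.length = c := by
    rw [← h1]
    simp
  have t2 : (W.drop c.length).take c.length = c := by
    rw [← h1]
    simp
  have t3 : W.take c.length = (W.drop c.length).take c.length := by rw [t1, t2]
  have hdvd : c.length * (j + 2) = 8 := by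
    rw [← hlen]; ring
  have : c.length = 1 ∨ c.length = 2 ∨ c.length = 3 ∨ c.length = 4 := by omega
  rcases this with h' | h' | h' | h' <;> rw [h'] at t3 hdvd
  · exact absurd t3 (by decide)
  · exact absurd t3 (by decide)
  · omega
  · exact absurd t3 (by decide)

theorem zpow_eq_v (k : K) (n : ℤ) (h : k ^ n = v) : n = 1 ∨ n = -1 := by
  rcases Int.eq_nat_or_neg n with ⟨m, rfl | rfl⟩
  · left
    rw [zpow_natCast] at h
    rw [pow_eq_v k m h]
    rfl
  · right
    rw [zpow_neg, zpow_natCast, ← inv_pow] at h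
    rw [pow_eq_v k⁻¹ m h]
    rfl

theorem centralizer_v (x : K) (h : x * v = v * x) : x ∈ Subgroup.zpowers v := by
  obtain ⟨k, m, n, rfl, h2⟩ := Q27.FreeFacts.comm_roots x v h
  rcases zpow_eq_v k n h2.symm with rfl | rfl
  · rw [zpow_one] at h2
    exact ⟨m, by rw [h2]⟩
  · refine ⟨-m, ?_⟩
    rw [h2]
    simp

theorem centralizer_a (x : K) (h : x * a = a * x) : x ∈ Subgroup.zpowers a := by
  obtain ⟨n, hn⟩ := Q27.FreeFacts.comm_of 0 x h.symm
  exact ⟨n, hn.symm⟩

theorem sep_of_centralizer (u : K) (hu : ∀ x : K, x * u = u * x → x ∈ Subgroup.zpowers u) :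
    Sep K u := by
  intro x hx
  have h1 : x * u * x⁻¹ * u⁻¹ ≠ 1 := by
    intro h
    apply hx
    apply hu
    have : x * u * x⁻¹ * u⁻¹ * (u * x) = x * u := by group
    rw [← this, h, one_mul]
  obtain ⟨q, hq⟩ := free_rf (Fin 2) _ h1
  refine ⟨q, ?_⟩
  rintro ⟨n, hn⟩
  apply hq
  have hn' : q.φ u ^ n = q.φ x := hn
  rw [map_mul, map_mul, map_mul, map_inv, map_inv, ← hn']
  group

theorem sep_a : Sep K a := sep_of_centralizer a centralizer_a

theorem sep_v : Sep K v := sep_of_centralizer v centralizer_v

/-- finite quotients in which `a` and `v` have the same order -/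
theorem align (q : FQ K) : ∃ r : FQ K, r.φ.ker ≤ q.φ.ker ∧ orderOf (r.φ a) = orderOf (r.φ v) := by
  have hp : 0 < orderOf (q.φ a) := orderOf_pos _
  have hr : 0 < orderOf (q.φ v) := orderOf_pos _
  set L := orderOf (q.φ a) * orderOf (q.φ v) with hL
  have hL0 : 0 < L := Nat.mul_pos hp hr
  have : NeZero (8 * L) := ⟨by omega⟩
  have : NeZero (2 * L) := ⟨by omega⟩
  let f : K →* DihedralGroup (8 * L) := lift ![DihedralGroup.sr 0, DihedralGroup.r 1]
  let g : K →* Multiplicative (ZMod (2 * L)) := lift ![Multiplicative.ofAdd 1, 1]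
  have hfa : f a = DihedralGroup.sr 0 := by simp [f, a]
  have hfb : f b = DihedralGroup.r 1 := by simp [f, b]
  have hga : g a = Multiplicative.ofAdd 1 := by simp [g, a]
  have hgb : g b = 1 := by simp [g, b]
  have hgv : g v = 1 := by
    simp only [v, map_mul, map_inv, hga, hgb]
    simp
  have hfv : f v = (DihedralGroup.r 4)⁻¹ := by
    simp only [v, map_mul, map_inv, hfa, hfb]
    simp
    ring
  have hofv : orderOf (f v) = 2 * L := by
    rw [hfv, orderOf_inv, DihedralGroup.orderOf_r]
    have h4 : (4 : ZMod (8 * L)).val = 4 := by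
      have : (4 : ZMod (8 * L)) = ((4 : ℕ) : ZMod (8 * L)) := by norm_cast
      rw [this, ZMod.val_natCast, Nat.mod_eq_of_lt (by omega)]
    rw [h4]
    have : Nat.gcd (8 * L) 4 = 4 := Nat.gcd_eq_right ⟨2 * L, by ring⟩
    rw [this]
    omega
  have hofa : orderOf (f a) = 2 := by rw [hfa, DihedralGroup.orderOf_sr]
  have hoga : orderOf (g a) = 2 * L := by
    rw [hga, orderOf_ofAdd_eq_addOrderOf, ZMod.addOrderOf_one]
  refine ⟨⟨q.Q × (DihedralGroup (8 * L) × Multiplicative (ZMod (2 * L))), q.φ.prod (f.prod g)⟩,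
    ?_, ?_⟩
  · intro x hx
    rw [MonoidHom.mem_ker] at hx ⊢
    exact congrArg Prod.fst hx
  · change orderOf (q.φ a, (f a, g a)) = orderOf (q.φ v, (f v, g v))
    rw [Prod.orderOf, Prod.orderOf, Prod.orderOf, Prod.orderOf]
    simp only
    rw [hofv, hofa, hoga, hgv, orderOf_one]
    have h1 : Nat.lcm 2 (2 * L) = 2 * L := Nat.lcm_eq_right ⟨L, rfl⟩
    have h2 : Nat.lcm (2 * L) 1 = 2 * L := Nat.lcm_one_right _
    rw [h1, h2]
    have h3 : Nat.lcm (orderOf (q.φ a)) (2 * L) = 2 * L :=
      Nat.lcm_eq_right ⟨2 * orderOf (q.φ v), by rw [hL]; ring⟩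
    have h4 : Nat.lcm (orderOf (q.φ v)) (2 * L) = 2 * L :=
      Nat.lcm_eq_right ⟨2 * orderOf (q.φ a), by rw [hL]; ring⟩
    rw [h3, h4]

end Q27.OneRel
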