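import Pool.Agent.Q27.OneRel.Free

/-! A residually finite one-relator group that is not residually solvable. -/

namespace Q27.OneRel

open FreeGroup (of lift)
open Pool.CS
open scoped commutatorElement

/-- the isomorphism of an infinite cyclic group with `⟨x⟩` -/
noncomputable def cyc (x : K) (hx : x ≠ 1) : Multiplicative ℤ ≃* Subgroup.zpowers x :=
  MulEquiv.ofBijective
    ((zpowersHom K x).codRestrict (Subgroup.zpowers x) (fun n => ⟨Multiplicative.toAdd n, rfl⟩))
    ⟨by
      intro m n h
      have h1 : x ^ (Multiplicative.toAdd m) = x ^ (Multiplicative.toAdd n) :=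
        congrArg Subtype.val h
      by_contra hne
      have h2 : x ^ (Multiplicative.toAdd m - Multiplicative.toAdd n) = 1 := by
        rw [zpow_sub, h1, mul_inv_cancel]
      have h3 : Multiplicative.toAdd m - Multiplicative.toAdd n ≠ 0 := by
        intro h0
        exact hne (Multiplicative.toAdd.injective (by omega))
      have h4 : x ^ (Multiplicative.toAdd m - Multiplicative.toAdd n) =
          (1 : K) ^ (Multiplicative.toAdd m - Multiplicative.toAdd n) := by rw [h2, one_zpow]
      exact hx (zpow_left_injective h3 h4),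
     by
      rintro ⟨y, n, hn⟩
      exact ⟨Multiplicative.ofAdd n, Subtype.ext hn⟩⟩

theorem cyc_one (x : K) (hx : x ≠ 1) :
    cyc x hx (Multiplicative.ofAdd 1) = ⟨x, Subgroup.mem_zpowers x⟩ := by
  apply Subtype.ext
  change x ^ (1 : ℤ) = x
  rw [zpow_one]

theorem a_ne : a ≠ 1 := FreeGroup.of_ne_one _

theorem v_ne : v ≠ 1 := by
  intro h
  have h1 := congrArg FreeGroup.toWord h
  rw [toWord_v, FreeGroup.toWord_one] at h1
  exact absurd h1 (by decide)

/-- the isomorphism of `⟨a⟩` with `⟨v⟩` -/
noncomputable def phi : Subgroup.zpowers a ≃* Subgroup.zpowers v :=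
  (cyc a a_ne).symm.trans (cyc v v_ne)

theorem phi_a : phi ⟨a, Subgroup.mem_zpowers a⟩ = ⟨v, Subgroup.mem_zpowers v⟩ := by
  rw [phi, MulEquiv.trans_apply, ← cyc_one a a_ne, MulEquiv.symm_apply_apply, cyc_one]

/-- the HNN extension -/
abbrev E := HNNExtension K (Subgroup.zpowers a) (Subgroup.zpowers v) phi

theorem rf_E : RF E :=
  (hnn_rf a v phi phi_a (free_rf (Fin 2)) sep_a sep_v align).1

/-- the relator `t a t⁻¹ [a, b a b⁻¹]⁻¹` -/
def rel : FreeGroup (Fin 3) :=
  of 2 * of 0 * (of 2)⁻¹ *
    (of 0 * (of 1 * of 0 * (of 1)⁻¹) * (of 0)⁻¹ * (of 1 * (of 0)⁻¹ * (of 1)⁻¹))⁻¹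

/-- the one-relator group -/
abbrev G := PresentedGroup ({rel} : Set (FreeGroup (Fin 3)))

/-- images of the generators in the HNN extension -/
noncomputable def gen : Fin 3 → E :=
  ![HNNExtension.of a, HNNExtension.of b, HNNExtension.t]

theorem t_a : (HNNExtension.t : E) * HNNExtension.of a = HNNExtension.of v * HNNExtension.t := by
  have h := HNNExtension.t_mul_of (φ := phi) ⟨a, Subgroup.mem_zpowers a⟩
  rw [phi_a] at h
  exact h

/-- the map to the HNN extension -/
noncomputable def toE : G →* E :=
  PresentedGroup.toGroup (f := gen) (by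
    intro r hr
    rw [Set.mem_singleton_iff] at hr
    subst hr
    have h1 : HNNExtension.of a * (HNNExtension.of b * HNNExtension.of a *
        (HNNExtension.of b)⁻¹) * (HNNExtension.of a)⁻¹ *
        (HNNExtension.of b * (HNNExtension.of a)⁻¹ * (HNNExtension.of b)⁻¹) =
        (HNNExtension.of v : E) := by
      let f : K →* E := HNNExtension.of
      change f a * (f b * f a * (f b)⁻¹) * (f a)⁻¹ * (f b * (f a)⁻¹ * (f b)⁻¹) = f v
      simp only [v, map_mul, map_inv]
    simp only [rel, map_mul, map_inv, FreeGroup.lift_apply_of, gen, Matrix.cons_val_zero,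
      Matrix.cons_val_one, Matrix.cons_val]
    rw [h1, t_a]
    group)

theorem toE_of (i : Fin 3) : toE (PresentedGroup.of i) = gen i :=
  PresentedGroup.toGroup.of _

/-- the images of the two generators -/
def gK : K →* G := lift ![PresentedGroup.of 0, PresentedGroup.of 1]

theorem gK_a : gK a = PresentedGroup.of 0 := by simp [gK, a]

theorem gK_b : gK b = PresentedGroup.of 1 := by simp [gK, b]

theorem rel_eq : (PresentedGroup.of 2 : G) * gK a = gK v * PresentedGroup.of 2 := by
  have h : (PresentedGroup.mk ({rel} : Set (FreeGroup (Fin 3))) rel) = 1 :=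
    PresentedGroup.one_of_mem (Set.mem_singleton _)
  have h2 : (PresentedGroup.of 2 : G) * gK a * (PresentedGroup.of 2)⁻¹ * (gK v)⁻¹ = 1 := by
    rw [← h]
    simp only [v, map_mul, map_inv, gK_a, gK_b, rel]
    rfl
  rw [mul_inv_eq_one, mul_inv_eq_iff_eq_mul] at h2
  exact h2

/-- the inverse map -/
noncomputable def fromE : E →* G :=
  HNNExtension.lift gK (PresentedGroup.of 2) (by
    rintro ⟨x, n, hn⟩
    have hn' : a ^ n = x := hn
    have h1 : ((phi ⟨x, n, hn⟩ : Subgroup.zpowers v) : K) = v ^ n := by
      have h2 : (⟨x, n, hn⟩ : Subgroup.zpowers a) = ⟨a, Subgroup.mem_zpowers a⟩ ^ n :=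
        Subtype.ext hn'.symm
      rw [h2, map_zpow, phi_a]
      rfl
    rw [h1]
    change _ * gK x = _
    rw [← hn', map_zpow, map_zpow]
    have h3 : SemiconjBy (PresentedGroup.of 2 : G) (gK a) (gK v) := rel_eq
    exact (h3.zpow_right n).eq)

theorem from_to (g : G) : fromE (toE g) = g := by
  have h : fromE.comp toE = MonoidHom.id G := by
    apply PresentedGroup.ext
    intro i
    rw [MonoidHom.comp_apply, toE_of]
    fin_cases i
    · change fromE (HNNExtension.of a) = _
      rw [fromE, HNNExtension.lift_of, gK_a]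
      rfl
    · change fromE (HNNExtension.of b) = _
      rw [fromE, HNNExtension.lift_of, gK_b]
      rfl
    · change fromE HNNExtension.t = _
      rw [fromE, HNNExtension.lift_t]
      rfl
  exact DFunLike.congr_fun h g

theorem toE_injective : Function.Injective toE := by
  intro x y h
  rw [← from_to x, h, from_to]

theorem rf_G (g : G) (hg : g ≠ 1) : ∃ N : Subgroup G, N.Normal ∧ N.FiniteIndex ∧ g ∉ N := by
  have h1 : toE g ≠ 1 := fun h => hg (toE_injective (h.trans (map_one toE).symm))
  obtain ⟨q, hq⟩ := rf_E _ h1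
  refine ⟨(q.φ.comp toE).ker, inferInstance, ?_, ?_⟩
  · exact Subgroup.finiteIndex_ker _
  · intro h
    exact hq h

/-- the generator `a` lies in all terms of the derived series -/
theorem derived (k : ℕ) : (PresentedGroup.of 0 : G) ∈ derivedSeries G k := by
  induction k with
  | zero => rw [derivedSeries_zero]; trivial
  | succ k ih =>
    rw [derivedSeries_succ]
    have hn : (derivedSeries G k).Normal := derivedSeries_normal G k
    have h1 : gK v ∈ ⁅derivedSeries G k, derivedSeries G k⁆ := by
      have h2 : gK v = ⁅(PresentedGroup.of 0 : G),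
          PresentedGroup.of 1 * PresentedGroup.of 0 * (PresentedGroup.of 1)⁻¹⁆ := by
        simp only [v, map_mul, map_inv, gK_a, gK_b, commutatorElement_def]
        group
      rw [h2]
      exact Subgroup.commutator_mem_commutator ih (hn.conj_mem _ ih _)
    have h3 : (PresentedGroup.of 0 : G) =
        (PresentedGroup.of 2)⁻¹ * gK v * ((PresentedGroup.of 2)⁻¹)⁻¹ := by
      have h4 := rel_eq
      rw [gK_a] at h4
      rw [inv_inv, mul_assoc, ← h4, inv_mul_cancel_left]
    rw [h3]
    exact (Subgroup.commutator_normal _ _).conj_mem _ h1 _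

theorem of0_ne : (PresentedGroup.of 0 : G) ≠ 1 := by
  intro h
  have h1 := congrArg toE h
  rw [toE_of, map_one] at h1
  have h2 : (HNNExtension.of a : E) = HNNExtension.of 1 := by
    rw [map_one]
    exact h1
  exact a_ne (HNNExtension.of_injective (φ := phi) h2)

end Q27.OneRel
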